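import Pool.Agent.Q117.LF.Row5

/-!
MP_73b532_nt (the Goldbach-Knjzek conjecture): for every large even `N`, every admissible vector of gaps up to a constant times the average gap between consecutive
representations of `N` as a sum of two almost primes, with a prime and a product of two primes at any two places, in the right order of magnitude.
-/

set_option autoImplicit false

namespace Pool.Agent.Results.MP_73b532_nt.ConsecutivePartitions

/-- all prime factors of `m` are `> z` (so `0` is not rough) -/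
def Rough (z : ℝ) (m : ℤ) : Prop := ∀ p : ℕ, p.Prime → (p : ℤ) ∣ m → z < p

/-- at most two prime factors (with multiplicity), all `> z` -/
def AtMostTwo (z : ℝ) (m : ℤ) : Prop := m.natAbs.primeFactorsList.length ≤ 2 ∧ Rough z m

/-- the value at the place `(j, σ)`: `n + D j` for `σ = false`, the other summand `N - n - D j` for `σ = true` -/
def val {J : ℕ} (N n : ℕ) (D : Fin (J + 1) → ℕ) (w : Fin (J + 1) × Bool) : ℤ := if w.2 then (N : ℤ) - n - D w.1 else (n : ℤ) + D w.1

/-- the density of the `m` such that `m (N - m)` has no prime factor `≤ N`: its inverse is the average gap -/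
noncomputable def dens (N : ℕ) : ℝ := ∏ p ∈ (Finset.Icc 1 N).filter Nat.Prime, (1 - (if p ∣ N then 1 else 2 : ℝ) / p)

/-- the density of the `m` such that the product of all the `(m + D j) (N - m - D j)` has no prime factor `≤ N` -/
noncomputable def densD {J : ℕ} (N : ℕ) (D : Fin (J + 1) → ℕ) : ℝ :=
  ∏ p ∈ (Finset.Icc 1 N).filter Nat.Prime,
    (1 - ((Finset.univ.image (fun j => (D j : ℤ) % p) ∪ Finset.univ.image (fun j => ((D j : ℤ) - N) % p)).card : ℝ) / p)

/-- the `n` such that the representations `N = m + (N - m)` with almost primes `m`, `N - m` and `|m - n| ≤ L` are exactly those with `m = n + D j`, all values are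
`> √N`, the value at the place `w₁` is prime and the value at the place `w₂` has at most two prime factors, all `> N ^ (1/9)` -/
def Good {J : ℕ} (N : ℕ) (z L : ℝ) (D : Fin (J + 1) → ℕ) (w₁ w₂ : Fin (J + 1) × Bool) : Set ℕ :=
  {n : ℕ | (∀ w, 0 < val N n D w ∧ (N : ℤ) < val N n D w ^ 2) ∧ (∀ m : ℤ, |((m - n : ℤ) : ℝ)| ≤ L → ((Rough z m ∧ Rough z (N - m)) ↔ ∃ j, m = (n : ℤ) + D j)) ∧
    (val N n D w₁).toNat.Prime ∧ AtMostTwo ((N : ℝ) ^ (1 / 9 : ℝ)) (val N n D w₂)}

open Pool.Agent.Q117.LF in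
theorem VF_pair (N : ℕ) : VF N {0, -(N : ℤ)} = dens N := by
  unfold VF dens
  apply Finset.prod_congr rfl
  intro p hp
  have h1 : oF {0, -(N : ℤ)} p = if p ∣ N then 1 else 2 := by
    unfold oF
    rw [Finset.image_insert, Finset.image_singleton]
    split_ifs with h
    · have : (0 : ℤ) % p = (-(N : ℤ)) % p := by
        rw [Int.zero_emod]
        exact (Int.emod_eq_zero_of_dvd ((dvd_neg).2 (by exact_mod_cast h))).symm
      rw [this, Finset.pair_eq_singleton, Finset.card_singleton]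
    · rw [Finset.card_pair]
      rw [Int.zero_emod]
      intro h0
      apply h
      have := Int.dvd_of_emod_eq_zero h0.symm
      exact_mod_cast (dvd_neg).1 this
  rw [h1]
  push_cast
  rfl

open Pool.Agent.Q117.LF in
theorem VF_gE {J : ℕ} (N : ℕ) (D : Fin (J + 1) → ℕ) : VF N (gE N D) = densD N D := by
  unfold VF densD
  apply Finset.prod_congr rfl
  intro p hp
  have h1 : oF (gE N D) p = (Finset.univ.image (fun j => (D j : ℤ) % p) ∪ Finset.univ.image (fun j => ((D j : ℤ) - N) % p)).card := by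
    unfold oF gE
    rw [Finset.image_union, Finset.image_image, Finset.image_image]
    rfl
  rw [h1]

theorem adm_gE {J : ℕ} {N : ℕ} {D : Fin (J + 1) → ℕ} (h : ∀ p : ℕ, p.Prime → ∃ r : ℤ, ∀ j, ¬ (p : ℤ) ∣ r + D j ∧ ¬ (p : ℤ) ∣ N - r - D j) :
    Pool.Agent.Q117.LF.AdmZ (Pool.Agent.Q117.LF.gE N D) := by
  classical
  intro p hp
  obtain ⟨r, hr⟩ := h p hp
  refine ⟨r, fun e he => ?_⟩
  unfold Pool.Agent.Q117.LF.gE at he
  rw [Finset.mem_union, Finset.mem_image, Finset.mem_image] at he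
  rcases he with ⟨j, -, rfl⟩ | ⟨j, -, rfl⟩
  · exact (hr j).1
  · intro hd
    apply (hr j).2
    have e : (N : ℤ) - r - D j = -(r + (D j - N)) := by ring
    rw [e]
    exact (dvd_neg).2 hd

theorem card_gE {J : ℕ} (N : ℕ) (D : Fin (J + 1) → ℕ) : (Pool.Agent.Q117.LF.gE N D).card ≤ 2 * (J + 1) := by
  classical
  unfold Pool.Agent.Q117.LF.gE
  refine (Finset.card_union_le _ _).trans ?_
  have h1 := Finset.card_image_le (s := (Finset.univ : Finset (Fin (J + 1)))) (f := fun j => (D j : ℤ))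
  have h2 := Finset.card_image_le (s := (Finset.univ : Finset (Fin (J + 1)))) (f := fun j => (D j : ℤ) - N)
  rw [Finset.card_univ, Fintype.card_fin] at h1 h2
  omega

theorem result : ∀ J : ℕ, ∃ t : ℕ, 1 ≤ t ∧ ∃ c : ℝ, 0 < c ∧ ∃ ν : ℝ, 0 < ν ∧ ∃ N0 : ℕ, ∀ N : ℕ, N0 ≤ N → Even N →
    ∀ D : Fin (J + 1) → ℕ, StrictMono D → D 0 = 0 → (∀ j, D j * dens N ≤ ν) →
      (∀ p : ℕ, p.Prime → ∃ r : ℤ, ∀ j, ¬ (p : ℤ) ∣ r + D j ∧ ¬ (p : ℤ) ∣ N - r - D j) →
      ∀ w₁ w₂ : Fin (J + 1) × Bool, w₁ ≠ w₂ →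
        c * (N * densD N D) ≤ ((Good N ((N : ℝ) ^ (1 / (t : ℝ))) (ν / dens N) D w₁ w₂).ncard : ℝ) := by
  classical
  intro J
  obtain ⟨t, ht, c, hc, ν, hν, N0, h⟩ := Pool.Agent.Q117.LF.t59M Pool.Agent.Q117.LF.fscC J
  obtain ⟨c₁, hc₁, hlow⟩ := Pool.Agent.Q117.LF.VF_low (2 * (J + 1)) (by omega)
  -- the numbers with a small summand are few
  have hev : ∀ᶠ N : ℕ in Filter.atTop, 2 * (Real.sqrt N + 1) ≤ c / 2 * (N * (c₁ / Real.log N ^ (2 * (J + 1)))) := by
    have hcast := tendsto_natCast_atTop_atTop (R := ℝ)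
    have h1 : Filter.Tendsto (fun X : ℝ => Real.log X ^ (2 * (J + 1)) / X ^ (1 / 2 : ℝ)) Filter.atTop (nhds 0) := by
      have h2 := (isLittleO_log_rpow_rpow_atTop ((2 * (J + 1) : ℕ) : ℝ) (show (0 : ℝ) < 1 / 2 by norm_num)).tendsto_div_nhds_zero
      refine h2.congr (fun X => ?_)
      rw [Real.rpow_natCast]
    have h3 := (h1.comp hcast).eventually (gt_mem_nhds (show (0 : ℝ) < c * c₁ / 8 by positivity))
    filter_upwards [h3, hcast.eventually_gt_atTop 3] with N g1 g2
    simp only [Function.comp] at g1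
    have hN0 : (0 : ℝ) < N := by linarith
    have hs1 : (1 : ℝ) ≤ Real.sqrt N := Real.one_le_sqrt.2 (by linarith)
    have hs0 : (0 : ℝ) < Real.sqrt N := by linarith
    rw [← Real.sqrt_eq_rpow, div_lt_iff₀ hs0] at g1
    have hl : 0 < Real.log N ^ (2 * (J + 1)) := pow_pos (Real.log_pos (by linarith)) _
    have h5 : c / 2 * (N * (c₁ / Real.log N ^ (2 * (J + 1)))) = c * c₁ / 2 * N / Real.log N ^ (2 * (J + 1)) := by ring
    rw [h5, le_div_iff₀ hl]
    have h6 : Real.sqrt N * Real.sqrt N = N := Real.mul_self_sqrt hN0.le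
    calc 2 * (Real.sqrt N + 1) * Real.log N ^ (2 * (J + 1)) ≤ 4 * Real.sqrt N * (c * c₁ / 8 * Real.sqrt N) := by
          apply mul_le_mul (by linarith) g1.le hl.le (by positivity)
      _ = c * c₁ / 2 * (Real.sqrt N * Real.sqrt N) := by ring
      _ = c * c₁ / 2 * N := by rw [h6]
  obtain ⟨N1, hN1⟩ := Filter.eventually_atTop.1 hev
  refine ⟨t, ht, c / 2, by positivity, ν, hν, max N0 (max N1 2), fun N hN he D hD hD0 hDν hadm w₁ w₂ hw => ?_⟩
  have hNa : N0 ≤ N := (le_max_left _ _).trans hN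
  have hNb : N1 ≤ N := (le_max_left _ _).trans ((le_max_right _ _).trans hN)
  have hNc : 2 ≤ N := (le_max_right _ _).trans ((le_max_right _ _).trans hN)
  have hmain := h N hNa he D hD hD0 (by rw [VF_pair]; exact hDν) hadm w₁ w₂ hw
  have hl := hlow N hNc _ (card_gE N D) (adm_gE hadm)
  have hs := hN1 N hNb
  rw [VF_gE] at hmain hl
  rw [VF_pair] at hmain
  obtain ⟨P, hP⟩ : ∃ P, P = Pool.Agent.Q117.LF.PtsQ N ((N : ℝ) ^ (1 / (t : ℝ))) (ν / dens N) D w₁ w₂ := ⟨_, rfl⟩
  rw [← hP] at hmain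
  have hB1 : ((Finset.range (N + 1)).filter (fun n : ℕ => n ^ 2 ≤ N)).card ≤ Nat.sqrt N + 1 := by
    have : (Finset.range (N + 1)).filter (fun n : ℕ => n ^ 2 ≤ N) ⊆ Finset.range (Nat.sqrt N + 1) := by
      intro n hn
      rw [Finset.mem_filter] at hn
      rw [Finset.mem_range, Nat.lt_succ_iff, Nat.le_sqrt']
      exact hn.2
    simpa using Finset.card_le_card this
  have hB2 : (P.filter (fun n : ℕ => (N - n - D (Fin.last J)) ^ 2 ≤ N)).card ≤ Nat.sqrt N + 1 := by
    have hinj : Set.InjOn (fun n : ℕ => N - n - D (Fin.last J)) ((P.filter (fun n : ℕ => (N - n - D (Fin.last J)) ^ 2 ≤ N) : Finset ℕ) : Set ℕ) := by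
      intro a ha b hb hab
      rw [Finset.mem_coe, Finset.mem_filter, hP] at ha hb
      have ha1 := ha.1
      have hb1 := hb.1
      unfold Pool.Agent.Q117.LF.PtsQ at ha1 hb1
      rw [Finset.mem_filter] at ha1 hb1
      have ha2 := (ha1.2.2.2.1 (Fin.last J, true)).1
      have hb2 := (hb1.2.2.2.1 (Fin.last J, true)).1
      simp only [Pool.Agent.Q117.LF.gv, if_true] at ha2 hb2
      simp only at hab
      omega
    rw [← Finset.card_image_of_injOn hinj]
    have : (P.filter (fun n : ℕ => (N - n - D (Fin.last J)) ^ 2 ≤ N)).image (fun n : ℕ => N - n - D (Fin.last J)) ⊆ Finset.range (Nat.sqrt N + 1) := by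
      intro x hx
      rw [Finset.mem_image] at hx
      obtain ⟨n, hn, rfl⟩ := hx
      rw [Finset.mem_filter] at hn
      rw [Finset.mem_range, Nat.lt_succ_iff, Nat.le_sqrt']
      exact hn.2
    simpa using Finset.card_le_card this
  have hsub : P \ (((Finset.range (N + 1)).filter (fun n : ℕ => n ^ 2 ≤ N)) ∪ P.filter (fun n : ℕ => (N - n - D (Fin.last J)) ^ 2 ≤ N)) ⊆
      P := Finset.sdiff_subset
  have hcount : (P.card : ℝ) - 2 * (Real.sqrt N + 1) ≤
      ((P \ (((Finset.range (N + 1)).filter (fun n : ℕ => n ^ 2 ≤ N)) ∪ P.filter (fun n : ℕ => (N - n - D (Fin.last J)) ^ 2 ≤ N))).card : ℝ) := by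
    have h1 := Finset.le_card_sdiff (((Finset.range (N + 1)).filter (fun n : ℕ => n ^ 2 ≤ N)) ∪ P.filter (fun n : ℕ => (N - n - D (Fin.last J)) ^ 2 ≤ N)) P
    have h2 := Finset.card_union_le ((Finset.range (N + 1)).filter (fun n : ℕ => n ^ 2 ≤ N)) (P.filter (fun n : ℕ => (N - n - D (Fin.last J)) ^ 2 ≤ N))
    have h3 : P.card ≤ (P \ (((Finset.range (N + 1)).filter (fun n : ℕ => n ^ 2 ≤ N)) ∪ P.filter (fun n : ℕ => (N - n - D (Fin.last J)) ^ 2 ≤ N))).card +
        2 * (Nat.sqrt N + 1) := by omega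
    have h4 : (P.card : ℝ) ≤ ((P \ (((Finset.range (N + 1)).filter (fun n : ℕ => n ^ 2 ≤ N)) ∪ P.filter (fun n : ℕ => (N - n - D (Fin.last J)) ^ 2 ≤ N))).card : ℝ) +
        2 * ((Nat.sqrt N : ℝ) + 1) := by exact_mod_cast h3
    have h5 : (Nat.sqrt N : ℝ) ≤ Real.sqrt N := Real.nat_sqrt_le_real_sqrt
    linarith
  have hfinal : c / 2 * (N * densD N D) ≤
      ((P \ (((Finset.range (N + 1)).filter (fun n : ℕ => n ^ 2 ≤ N)) ∪ P.filter (fun n : ℕ => (N - n - D (Fin.last J)) ^ 2 ≤ N))).card : ℝ) := by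
    have h1 : c / 2 * (N * (c₁ / Real.log N ^ (2 * (J + 1)))) ≤ c / 2 * (N * densD N D) := by
      apply mul_le_mul_of_nonneg_left _ (by positivity)
      exact mul_le_mul_of_nonneg_left hl (Nat.cast_nonneg _)
    have h2 : c * (N * densD N D) = c / 2 * (N * densD N D) + c / 2 * (N * densD N D) := by ring
    linarith
  refine hfinal.trans ?_
  rw [← Set.ncard_coe_finset, Nat.cast_le]
  have hfin : (Good N ((N : ℝ) ^ (1 / (t : ℝ))) (ν / dens N) D w₁ w₂).Finite := by
    apply Set.Finite.subset (Set.finite_Iic N)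
    rintro n ⟨h1, -⟩
    have := (h1 (0, true)).1
    simp only [val, if_true] at this
    simp only [Set.mem_Iic]
    omega
  apply Set.ncard_le_ncard _ hfin
  intro n hn
  rw [Finset.mem_coe, Finset.mem_sdiff, Finset.mem_union, not_or, Finset.mem_filter, Finset.mem_filter] at hn
  obtain ⟨hn0, hn1, hn2⟩ := hn
  have hnP := hn0
  rw [hP] at hn0
  unfold Pool.Agent.Q117.LF.PtsQ at hn0
  rw [Finset.mem_filter, Finset.mem_range] at hn0
  obtain ⟨g0, g1, g2, g3, g4⟩ := hn0
  have hn1' : N < n ^ 2 := by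
    by_contra hcon
    push Not at hcon
    exact hn1 ⟨Finset.mem_range.2 (by omega), hcon⟩
  have hn2' : N < (N - n - D (Fin.last J)) ^ 2 := by
    by_contra hcon
    push Not at hcon
    exact hn2 ⟨hnP, hcon⟩
  refine ⟨fun w => ⟨(g3 w).1, ?_⟩, fun m hm => ⟨fun hT => g4 m hm hT.1 hT.2, ?_⟩, g1, g2⟩
  · obtain ⟨j, e⟩ := w
    cases e
    · have h1 : (n : ℤ) ≤ val N n D (j, false) := by simp [val]
      have h2 : ((n : ℤ)) ^ 2 ≤ val N n D (j, false) ^ 2 := pow_le_pow_left₀ (Int.natCast_nonneg n) h1 2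
      have h3 : (N : ℤ) < (n : ℤ) ^ 2 := by exact_mod_cast hn1'
      linarith
    · have hpos := (g3 (Fin.last J, true)).1
      simp only [Pool.Agent.Q117.LF.gv, if_true] at hpos
      have hle : D j ≤ D (Fin.last J) := hD.monotone (Fin.le_last j)
      have h0 : ((N - n - D (Fin.last J) : ℕ) : ℤ) = (N : ℤ) - n - D (Fin.last J) := by omega
      have h1 : ((N - n - D (Fin.last J) : ℕ) : ℤ) ≤ val N n D (j, true) := by
        rw [h0]
        simp only [val, if_true]
        have : (D j : ℤ) ≤ D (Fin.last J) := by exact_mod_cast hle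
        linarith
      have h2 : (((N - n - D (Fin.last J) : ℕ) : ℤ)) ^ 2 ≤ val N n D (j, true) ^ 2 := pow_le_pow_left₀ (Int.natCast_nonneg _) h1 2
      have h3 : (N : ℤ) < ((N - n - D (Fin.last J) : ℕ) : ℤ) ^ 2 := by exact_mod_cast hn2'
      linarith
  · rintro ⟨j, rfl⟩
    constructor
    · exact (g3 (j, false)).2
    · have h0 : Rough _ _ := (g3 (j, true)).2
      have e : (N : ℤ) - ((n : ℤ) + D j) = Pool.Agent.Q117.LF.gv N n D (j, true) := by
        simp [Pool.Agent.Q117.LF.gv]; ring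
      rw [e]; exact h0

end Pool.Agent.Results.MP_73b532_nt.ConsecutivePartitions
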