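import Pool.Agent.Q253.Thin.QAP
import Pool.Agent.Q253.Thin.GoldSample

/-!
# Every even `N = p + m` with `p` in a window of `(√N, N / 2]` and arbitrary forbidden residue classes for `p`

For every prime `q ≤ N ^ (1/K)` at most `r` residue classes modulo `q` are forbidden in an arbitrary way (an adversary
chooses them), such that for no `q` all classes prime to `q` and different from `N` are forbidden. For EVERY large even `N`
and every window `(u, v]` in `(√N, N / 2]` with at least `θ N` elements: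

* the number of the primes `p` of the window outside all forbidden classes, such that `N - p` is a prime or a product
  of two primes `> N ^ (1/9)`, has the expected order of magnitude;
* every subset of positive relative density of these primes contains arithmetic progressions of length `k` with
  differences `≤ log ^ D N`;
* either the number of these primes with `N - p` prime has the expected order, or there are `k` primes `q_i > N ^ (1/9)`
  in a progression with difference `≤ log ^ D N`, such that for every `i` the number of these primes with `N - p = q_i p'`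
  has the expected order.

Libraries: `Y840.CT.GenF` (Chen's theorem for systems of classes), `Y151.HS.FLC` (fundamental lemma in residue classes),
`Y843.HS.Top` (Szemerédi's theorem relative to sifted sets), all starting files.
-/

set_option autoImplicit false

namespace Pool.Agent.Results.MP_73b532_nt.ForbiddenClasses

open Finset Filter
open Pool.Agent.Y840.CT Pool.Agent.Q253.Thin

/-- the number of the residue classes modulo `q` which contain `0`, `N` or an element of `F q` -/
def classes (N : ℕ) (F : ℕ → Finset ℤ) (q : ℕ) : ℕ :=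
  ((insert 0 (insert (N : ℤ) (F q))).image (fun h : ℤ => h % q)).card

/-- the density of the integers which avoid all these classes for the primes `q ≤ N` -/
noncomputable def dens (N : ℕ) (F : ℕ → Finset ℤ) : ℝ :=
  ∏ q ∈ (Icc 1 N).filter Nat.Prime, (1 - (classes N F q : ℝ) / q)

/-- admissible forbidden classes: at most `r` for every prime `q`, and together with `0` and `N` not all classes -/
def Admissible (r N : ℕ) (F : ℕ → Finset ℤ) : Prop :=
  ∀ q : ℕ, q.Prime → (F q).card ≤ r ∧ classes N F q < q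

/-- `n` is a prime or a product of two primes, and all its prime factors are larger than `z` -/
def AlmostPrime (z : ℝ) (n : ℕ) : Prop :=
  (n.Prime ∨ ∃ a b : ℕ, a.Prime ∧ b.Prime ∧ n = a * b) ∧ ∀ q : ℕ, q.Prime → q ∣ n → z < q

open Classical in
/-- the primes `p > N ^ (1/K)` in `(u, v]` such that `N - p` has no prime factor `≤ N ^ (1/K)` and `p` is in no
forbidden class modulo a prime `q ≤ N ^ (1/K)` -/
noncomputable def Free (K N u v : ℕ) (F : ℕ → Finset ℤ) : Finset ℕ :=
  (Ioc u v).filter (fun p => p.Prime ∧ (N : ℝ) ^ (1 / (K : ℝ)) < p ∧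
    ∀ q : ℕ, q.Prime → (q : ℝ) ≤ (N : ℝ) ^ (1 / (K : ℝ)) → ¬ q ∣ N - p ∧ ∀ f ∈ F q, ¬ (p : ℤ) ≡ f [ZMOD q])

open Classical in
/-- the primes of `Free` such that `N - p` is a prime or a product of two primes `> N ^ (1/9)` -/
noncomputable def Chen (K N u v : ℕ) (F : ℕ → Finset ℤ) : Finset ℕ :=
  (Free K N u v F).filter (fun p => AlmostPrime ((N : ℝ) ^ (1 / 9 : ℝ)) (N - p))

open Classical in
/-- the primes of `Free` such that `N - p` is a prime -/
noncomputable def Gold (K N u v : ℕ) (F : ℕ → Finset ℤ) : Finset ℕ :=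
  (Free K N u v F).filter (fun p => (N - p).Prime)

open Classical in
/-- the primes of `Free` such that `N - p = q p'` with a prime `p' ≥ q` -/
noncomputable def WithFactor (q K N u v : ℕ) (F : ℕ → Finset ℤ) : Finset ℕ :=
  (Free K N u v F).filter (fun p => ∃ p' : ℕ, p'.Prime ∧ q ≤ p' ∧ N = p + q * p')

/-- the classes of the sieve -/
def GF (N : ℕ) (F : ℕ → Finset ℤ) (q : ℕ) : Finset ℤ := insert (N : ℤ) (F q)

lemma sys {r N : ℕ} (hN : 2 ≤ N) {F : ℕ → Finset ℤ} (hF : Admissible r N F) : SysF (r + 1) N (GF N F) N where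
  card q hq := (card_insert_le _ _).trans (Nat.add_le_add_right (hF q hq).1 1)
  ne := by
    have : N ≠ 0 := by omega
    exact_mod_cast this
  size := by
    rw [abs_of_nonneg (by positivity)]
  mem q _ := mem_insert_self _ _
  loc q hq := (hF q hq).2

lemma vf_eq (N : ℕ) (F : ℕ → Finset ℤ) : VF (GF N F) N = dens N F := rfl

lemma mem_free {K N u v : ℕ} (hv : v ≤ N) {F : ℕ → Finset ℤ} (p : ℕ) : p ∈ Free K N u v F ↔
    p ∈ Ioc u v ∧ p.Prime ∧ (N : ℝ) ^ (1 / (K : ℝ)) < p ∧
      ∀ q : ℕ, q.Prime → (q : ℝ) ≤ (N : ℝ) ^ (1 / (K : ℝ)) → ∀ h ∈ GF N F q, ¬ (q : ℤ) ∣ h - p := by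
  classical
  unfold Free
  rw [mem_filter]
  constructor
  · rintro ⟨h1, h2, h3, h4⟩
    refine ⟨h1, h2, h3, fun q hq hqz h hh hd => ?_⟩
    obtain ⟨h5, h6⟩ := h4 q hq hqz
    unfold GF at hh
    rw [mem_insert] at hh
    rcases hh with rfl | hh
    · apply h5
      rw [mem_Ioc] at h1
      have e : ((N : ℕ) : ℤ) - p = ((N - p : ℕ) : ℤ) := by
        rw [Nat.cast_sub (by omega)]
      rw [e] at hd
      exact_mod_cast hd
    · exact h6 h hh ((Int.modEq_iff_dvd).2 hd)
  · rintro ⟨h1, h2, h3, h4⟩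
    refine ⟨h1, h2, h3, fun q hq hqz => ⟨fun hd => ?_, fun f hf hm => ?_⟩⟩
    · apply h4 q hq hqz N (mem_insert_self _ _)
      rw [mem_Ioc] at h1
      have e : ((N : ℕ) : ℤ) - p = ((N - p : ℕ) : ℤ) := by
        rw [Nat.cast_sub (by omega)]
      rw [e]
      exact_mod_cast hd
    · exact h4 q hq hqz f (mem_insert_of_mem hf) ((Int.modEq_iff_dvd).1 hm)

lemma chen_eq {K N u v : ℕ} (hv : 2 * v ≤ N) (hN : 4 ≤ N) {F : ℕ → Finset ℤ} :
    Chen K N u v F = GoodF K N u v (GF N F) N := by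
  classical
  ext p
  have h1 : p ∈ Chen K N u v F ↔ p ∈ Free K N u v F ∧ AlmostPrime ((N : ℝ) ^ (1 / 9 : ℝ)) (N - p) := by
    unfold Chen
    rw [mem_filter]
  have h2 : p ∈ GoodF K N u v (GF N F) N ↔
      p ∈ Ioc u v ∧ p.Prime ∧ (N : ℝ) ^ (1 / (K : ℝ)) < p ∧ Rough 2 ((N : ℝ) ^ (1 / 9 : ℝ)) ((N : ℤ) - p) ∧
      ∀ q : ℕ, q.Prime → (q : ℝ) ≤ (N : ℝ) ^ (1 / (K : ℝ)) → ∀ h ∈ GF N F q, ¬ (q : ℤ) ∣ h - p := by
    unfold GoodF
    rw [mem_filter]
  rw [h1, h2, mem_free (by omega)]
  have key : ∀ p : ℕ, p ∈ Ioc u v → (AlmostPrime ((N : ℝ) ^ (1 / 9 : ℝ)) (N - p) ↔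
      Rough 2 ((N : ℝ) ^ (1 / 9 : ℝ)) ((N : ℤ) - p)) := by
    intro p hp
    rw [mem_Ioc] at hp
    have e : ((N : ℤ) - p).natAbs = N - p := by omega
    have h3 := P2_iff (show 1 < N - p by omega) ((N : ℝ) ^ (1 / 9 : ℝ))
    have h4 : AlmostPrime ((N : ℝ) ^ (1 / 9 : ℝ)) (N - p) ↔ P2 ((N : ℝ) ^ (1 / 9 : ℝ)) (N - p) := Iff.rfl
    rw [h4, h3]
    unfold Rough
    rw [e]
    constructor
    · rintro ⟨a1, a2⟩
      refine ⟨by omega, a1, fun q hq hd => a2 q hq ?_⟩
      rw [← e, ← Int.natCast_dvd]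
      exact hd
    · rintro ⟨_, a1, a2⟩
      refine ⟨a1, fun q hq hd => a2 q hq ?_⟩
      rw [Int.natCast_dvd, e]
      exact hd
  constructor
  · rintro ⟨⟨a1, a2, a3, a4⟩, a5⟩
    exact ⟨a1, a2, a3, (key p a1).1 a5, a4⟩
  · rintro ⟨a1, a2, a3, a4, a5⟩
    exact ⟨⟨a1, a2, a3, a5⟩, (key p a1).2 a4⟩

/-- **Arbitrary forbidden classes.** For every `r` there are `K, K'` and `c > 0` such that for all `k` and `δ, θ > 0` there
are `D`, `N₀` such that for EVERY even `N ≥ N₀`, all admissible forbidden classes `F` (at most `r` classes modulo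
every prime, chosen in any way) and all `√N ≤ u < v ≤ N / 2` with `v - u ≥ θ N`:

(1) `Chen K N u v F` has at least `c (v - u) dens N F` elements, and `dens N F ≥ c / log ^ (r + 2) N`;

(2) every subset of `Chen K N u v F` of relative density `δ` contains an arithmetic progression of length `k` with
difference at most `log ^ D N`;

(3) either `Gold K' N u v F` has at least `c (v - u) dens N F` elements, or there are `k` primes
`q_i = q + i d > N ^ (1/9)` in an arithmetic progression, `d ≤ log ^ D N`, such that for every `i` the set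
`WithFactor q_i K' N u v F` has at least `c (v - u) dens N F / q_i` elements. -/
theorem result : ∀ r : ℕ, ∃ (K K' : ℕ) (c : ℝ), 1 ≤ K ∧ 1 ≤ K' ∧ 0 < c ∧ ∀ (k : ℕ) (δ θ : ℝ), 0 < δ → 0 < θ →
    ∃ D N₀ : ℕ, ∀ N : ℕ, N₀ ≤ N → Even N → ∀ F : ℕ → Finset ℤ, Admissible r N F →
    ∀ u v : ℕ, Real.sqrt N ≤ u → 2 * v ≤ N → θ * N ≤ (v : ℝ) - u →
      (c * (((v : ℝ) - u) * dens N F) ≤ (Chen K N u v F).card ∧ c / Real.log N ^ (r + 2) ≤ dens N F) ∧
      (∀ S : Finset ℕ, S ⊆ Chen K N u v F → δ * ((Chen K N u v F).card : ℝ) ≤ S.card →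
        ∃ a d : ℕ, 1 ≤ d ∧ (d : ℝ) ≤ Real.log N ^ D ∧ ∀ j < k, a + j * d ∈ S) ∧
      (c * (((v : ℝ) - u) * dens N F) ≤ (Gold K' N u v F).card ∨
        ∃ q d : ℕ, 1 ≤ d ∧ (d : ℝ) ≤ Real.log N ^ D ∧ ∀ j < k, (q + j * d).Prime ∧
          (N : ℝ) ^ (1 / 9 : ℝ) < ((q + j * d : ℕ) : ℝ) ∧
          c * (((v : ℝ) - u) * dens N F / ((q + j * d : ℕ) : ℝ)) ≤ (WithFactor (q + j * d) K' N u v F).card) := by
  classical
  intro r
  obtain ⟨K, hK, c0, hc0, hgen, hrel⟩ := genF (r + 1)
  obtain ⟨K', hK', c1, hc1, hdich⟩ := dich_ap (r + 1)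
  obtain ⟨cV, hcV, hVlow⟩ := VF_low (r + 1)
  have hm0 : 0 < min (min c0 c1) cV := lt_min (lt_min hc0 hc1) hcV
  refine ⟨K, K', min (min c0 c1) cV, hK, hK', hm0, ?_⟩
  intro k δ θ hδ hθ
  obtain ⟨X₁, hX₁⟩ := hgen θ hθ
  obtain ⟨D₂, X₂, hX₂⟩ := hrel k θ δ hθ hδ
  obtain ⟨D₃, X₃, hX₃⟩ := hdich k θ hθ
  refine ⟨max D₂ D₃, max X₁ (max X₂ (max X₃ 16)), ?_⟩
  intro N hN hNe F hF u v hu hv huv
  have n1 : X₁ ≤ N := (le_max_left _ _).trans hN
  have n2 : X₂ ≤ N := (le_max_left _ _).trans ((le_max_right _ _).trans hN)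
  have n3 : X₃ ≤ N := (le_max_left _ _).trans ((le_max_right _ _).trans ((le_max_right _ _).trans hN))
  have n4 : 16 ≤ N := (le_max_right _ _).trans ((le_max_right _ _).trans ((le_max_right _ _).trans hN))
  have hNr : (16 : ℝ) ≤ N := by exact_mod_cast n4
  have hN0 : (0 : ℝ) < N := by linarith
  have hl1 : 1 ≤ Real.log N := by
    rw [Real.le_log_iff_exp_le hN0]
    exact (Real.exp_one_lt_d9.le.trans (by norm_num)).trans hNr
  have hl0 : 0 < Real.log N := by linarith
  have hsys := sys (N := N) (by omega) hF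
  have huv0 : (0 : ℝ) < (v : ℝ) - u := lt_of_lt_of_le (by positivity) huv
  have hV : cV / Real.log N ^ (r + 2) ≤ dens N F := by
    rw [← vf_eq]
    exact hVlow N (by omega) _ hsys.card hsys.loc
  have hV0 : 0 < dens N F := lt_of_lt_of_le (by positivity) hV
  have hD : ∀ {D d : ℕ}, (d : ℝ) ≤ Real.log N ^ D → D ≤ max D₂ D₃ → (d : ℝ) ≤ Real.log N ^ (max D₂ D₃) := by
    intro D d h1 h2
    exact h1.trans (pow_le_pow_right₀ hl1 h2)
  have hE : 0 < ((v : ℝ) - u) * dens N F := by positivity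
  have hc0' : min (min c0 c1) cV ≤ c0 := (min_le_left _ _).trans (min_le_left _ _)
  have hc1' : min (min c0 c1) cV ≤ c1 := (min_le_left _ _).trans (min_le_right _ _)
  refine ⟨⟨?_, ?_⟩, ?_, ?_⟩
  · rw [chen_eq hv (by omega)]
    have h1 := hX₁ N n1 _ _ hsys u v (by omega) huv
    rw [vf_eq, mul_assoc] at h1
    exact (mul_le_mul_of_nonneg_right hc0' hE.le).trans h1
  · refine le_trans ?_ hV
    exact div_le_div_of_nonneg_right (min_le_right _ _) (by positivity)
  · intro S hS hSc
    rw [chen_eq hv (by omega)] at hS hSc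
    obtain ⟨a, d, h1, h2, h3⟩ := hX₂ N n2 _ _ hsys u v (by omega) huv S hS hSc
    exact ⟨a, d, h1, hD h2 (le_max_left _ _), h3⟩
  · have hwin : ∀ p ∈ GoodF K' N u v (GF N F) N, p ∈ Free K' N u v F ∧ ((N : ℤ) - p).natAbs = N - p ∧ p ≤ N := by
      intro p hp
      unfold GoodF at hp
      rw [mem_filter] at hp
      obtain ⟨p1, pp, pt, _, pF⟩ := hp
      have p2 := mem_Ioc.1 p1
      exact ⟨(mem_free (by omega) p).2 ⟨p1, pp, pt, pF⟩, by omega, by omega⟩
    rcases hX₃ N n3 _ _ hsys u v (by omega) huv with h | ⟨q, d, h1, h2, h3⟩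
    · left
      rw [vf_eq] at h
      refine (mul_le_mul_of_nonneg_right hc1' hE.le).trans (h.trans ?_)
      have : (PF K' N u v (GF N F) N).card ≤ (Gold K' N u v F).card := by
        apply card_le_card
        intro p hp
        unfold PF at hp
        rw [mem_filter] at hp
        unfold Gold
        rw [mem_filter]
        obtain ⟨b1, b2, b3⟩ := hwin p hp.1
        refine ⟨b1, ?_⟩
        rw [← b2]
        exact hp.2
      exact_mod_cast this
    · right
      refine ⟨q, d, h1, hD h2 (le_max_right _ _), ?_⟩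
      intro j hj
      have h4 := h3 j hj
      unfold Gd at h4
      rw [mem_filter] at h4
      obtain ⟨_, ⟨a1, a2⟩, a3, a4⟩ := h4
      have hq0 : (0 : ℝ) < ((q + j * d : ℕ) : ℝ) := by exact_mod_cast a1.pos
      refine ⟨a1, a2, ?_⟩
      rw [vf_eq] at a4
      refine (mul_le_mul_of_nonneg_right hc1' (by positivity)).trans (a4.trans ?_)
      have : (RF K' N u v (GF N F) N (q + j * d)).card ≤ (WithFactor (q + j * d) K' N u v F).card := by
        apply card_le_card
        intro p hp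
        unfold RF at hp
        rw [mem_filter] at hp
        obtain ⟨hp1, q', hq', hqq', hpq⟩ := hp
        unfold WithFactor
        rw [mem_filter]
        obtain ⟨b1, b2, b3⟩ := hwin p hp1
        refine ⟨b1, q', hq', hqq', ?_⟩
        rw [b2] at hpq
        omega
      exact_mod_cast this

end Pool.Agent.Results.MP_73b532_nt.ForbiddenClasses
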