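import Pool.Agent.Q145.MT.Gold
import Pool.Agent.Q145.LP.Ch

set_option autoImplicit false
set_option maxHeartbeats 4000000

/-! # The small primes in the Goldbach representations of even numbers

Let `G(N)` be the set of the primes `p` such that `N - p` is prime, and
`F(x) = log x (log₂ x)³ log₄ x / (log₃ x)²`, the order of the largest known values of `min G(N)`.

(1) For every `m` there is `K` such that for ANY `K` primes `q_1, …, q_K` with `K < q_j ≤ c F(x)`, for any colouring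
of the indices with `m` colours and for at least `x^(9/10)` even numbers `N ∈ (x, 4 x]`: ALL elements `≤ c F(x)` of
`G(N)` are among `q_1, …, q_K`, and they have at least `η m` different colours.

(2) For every `r` there is `K` such that for any real numbers `0 ≤ β_1 < … < β_K` there are `i_1 < … < i_r` for which
`(β_(i_1), …, β_(i_r))` is a limit point of `(g_1(N), …, g_r(N)) / (log N log log N)`, where
`g_1(N) < g_2(N) < …` are the elements of `G(N)`. -/

namespace Pool.Agent.Results.MP_73b532_nt.GoldbachSignatures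

open Finset Filter
open Pool.Agent.Q145.MT

/-- `F(x) = log x (log₂ x)³ log₄ x / (log₃ x)²` (iterated natural logarithms). -/
noncomputable def F (x : ℝ) : ℝ :=
  Real.log x * (Real.log (Real.log x)) ^ 3 * Real.log (Real.log (Real.log (Real.log x))) /
    (Real.log (Real.log (Real.log x))) ^ 2

/-- For `1 ≤ i ≤ J`: the numbers `q l` are the only primes `p ≤ y` for which `i N - p` is prime, and only with
`i = 1`; and `i N + p` is not prime for any prime `p ≤ y`. -/
def Only {K : ℕ} (J : ℕ) (y : ℝ) (q : Fin K → ℕ) (N : ℕ) : Prop :=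
  ∀ i : ℕ, 1 ≤ i → i ≤ J → ∀ p p' : ℕ, p.Prime → p'.Prime → (p : ℝ) ≤ y →
    (p + p' = i * N → i = 1 ∧ ∃ l, p = q l) ∧ i * N + p ≠ p'

/-- `p 0 < p 1 < …` are the `r` least primes `p` such that `N - p` is prime. -/
def LeastPrimes {r : ℕ} (N : ℕ) (p : Fin r → ℕ) : Prop :=
  StrictMono p ∧ (∀ k, (p k).Prime ∧ p k ≤ N ∧ (N - p k).Prime) ∧
    ∀ q : ℕ, q.Prime → q ≤ N → (N - q).Prime → (∃ k, q = p k) ∨ ∀ k, p k < q

theorem F_eq (x : ℝ) : F x = FF x := by
  unfold F FF Pool.Agent.H256R2.SC.ff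
  ring

/-- primes just below `y` -/
theorem prime_below (ε : ℝ) (hε : 0 < ε) (hε1 : ε < 1) : ∃ y₀ : ℝ, ∀ y : ℝ, y₀ ≤ y →
    ∃ p : ℕ, p.Prime ∧ (1 - ε) * y < p ∧ (p : ℝ) ≤ y := by
  obtain ⟨y₀, h⟩ := Pool.Agent.Q145.LP.theta_gap ε hε hε1
  refine ⟨max y₀ 1, fun y hy => ?_⟩
  have h1 := h y ((le_max_left _ _).trans hy)
  have hy1 : 1 ≤ y := (le_max_right _ _).trans hy
  by_contra hcon
  push Not at hcon
  have h2 : Chebyshev.theta y ≤ Chebyshev.theta ((1 - ε) * y) := by
    unfold Chebyshev.theta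
    apply sum_le_sum_of_subset_of_nonneg
    · intro p hp
      rw [mem_filter, mem_Ioc] at hp ⊢
      obtain ⟨⟨g1, g2⟩, g3⟩ := hp
      refine ⟨⟨g1, ?_⟩, g3⟩
      apply Nat.le_floor
      by_contra h3
      push Not at h3
      have h4 := hcon p g3 h3
      have h5 := (Nat.le_floor_iff (by linarith : 0 ≤ y)).1 g2
      linarith
    · intro p hp _
      rw [mem_filter] at hp
      exact Real.log_nonneg (by exact_mod_cast hp.2.one_lt.le)
  nlinarith

theorem growth (a ε : ℝ) (hε : 0 < ε) : ∀ᶠ x : ℝ in atTop, a ≤ Real.log x * Real.log (Real.log x) ∧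
    1 ≤ Real.log (Real.log x) ∧ ∀ N : ℝ, x < N → N ≤ 4 * x →
      Real.log x * Real.log (Real.log x) ≤ Real.log N * Real.log (Real.log N) ∧
      Real.log N * Real.log (Real.log N) ≤ (1 + ε) * (Real.log x * Real.log (Real.log x)) := by
  have t1 := Real.tendsto_log_atTop
  have t2 : Tendsto (fun x : ℝ => Real.log (Real.log x)) atTop atTop := t1.comp t1
  filter_upwards [t1.eventually_ge_atTop (|a| + 1), t1.eventually_ge_atTop (8 / ε + 1), t2.eventually_ge_atTop 1,
    eventually_ge_atTop 1] with x h1 h2 h3 h4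
  set l1 := Real.log x with hl1
  set l2 := Real.log l1 with hl2
  have ha : 0 ≤ |a| := abs_nonneg a
  have h8 : 0 < 8 / ε := by positivity
  have hl10 : 0 < l1 := by linarith
  refine ⟨?_, h3, fun N hN1 hN2 => ?_⟩
  · have h5 := le_abs_self a
    have h6 : l1 * 1 ≤ l1 * l2 := by gcongr
    linarith
  · have hN0 : 0 < N := by linarith
    have e1 : l1 ≤ Real.log N := Real.log_le_log (by linarith) hN1.le
    have e2 : Real.log N ≤ l1 + 2 := by
      have h5 := Real.log_le_log hN0 hN2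
      rw [Real.log_mul (by norm_num) (by linarith)] at h5
      have h6 : Real.log 4 ≤ 2 := by
        have h7 : Real.log 4 = 2 * Real.log 2 := by
          rw [show (4 : ℝ) = 2 ^ 2 by norm_num, Real.log_pow]
          norm_num
        have := Real.log_two_lt_d9
        rw [h7]
        linarith
      linarith
    have e3 : l2 ≤ Real.log (Real.log N) := Real.log_le_log hl10 e1
    have e4 : Real.log (Real.log N) ≤ l2 + 2 / l1 := by
      have h5 := Real.log_le_log (by linarith) e2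
      have h6 : l1 + 2 = l1 * (1 + 2 / l1) := by field_simp
      rw [h6, Real.log_mul hl10.ne' (by positivity)] at h5
      have h7 := Real.log_le_sub_one_of_pos (show 0 < 1 + 2 / l1 by positivity)
      linarith
    constructor
    · exact mul_le_mul e1 e3 (by linarith) (by linarith)
    · have h5 : Real.log N * Real.log (Real.log N) ≤ (l1 + 2) * (l2 + 2 / l1) :=
        mul_le_mul e2 e4 (by linarith) (by linarith)
      have h6 : (l1 + 2) * (l2 + 2 / l1) = l1 * l2 + (2 + 2 * l2 + 4 / l1) := by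
        field_simp; ring
      have h7 : 4 / l1 ≤ 4 * l2 := by
        rw [div_le_iff₀ hl10]
        nlinarith
      have h8' : 8 ≤ ε * l1 := by
        have : 8 / ε ≤ l1 := by linarith
        rw [div_le_iff₀ hε] at this
        linarith
      have h9 : 8 * l2 ≤ ε * l1 * l2 := mul_le_mul_of_nonneg_right h8' (by linarith)
      nlinarith

theorem vectors (r : ℕ) (hr : 1 ≤ r) : ∃ K : ℕ, r ≤ K ∧ ∀ β : Fin K → ℝ, StrictMono β → (∀ j, 0 ≤ β j) →
    ∀ ε : ℝ, 0 < ε → ∀ N₀ : ℕ, ∃ I : Fin r → Fin K, StrictMono I ∧ ∃ N : ℕ, N₀ ≤ N ∧ Even N ∧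
      ∃ p : Fin r → ℕ, LeastPrimes N p ∧
        ∀ k, |(p k : ℝ) / (Real.log N * Real.log (Real.log N)) - β (I k)| < ε := by
  classical
  obtain ⟨η, hη, hs⟩ := signatures
  obtain ⟨m, hm⟩ : ∃ m : ℕ, m = ⌈(r : ℝ) / η⌉₊ + r := ⟨_, rfl⟩
  have hm1 : 1 ≤ m := by omega
  have hηm : (r : ℝ) ≤ η * m := by
    have h1 := Nat.le_ceil ((r : ℝ) / η)
    have h2 : (r : ℝ) / η ≤ m := by
      refine h1.trans ?_
      exact_mod_cast (by omega : ⌈(r : ℝ) / η⌉₊ ≤ m)
    rw [div_le_iff₀ hη] at h2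
    linarith
  obtain ⟨K, hmK, hK⟩ := hs m hm1
  obtain ⟨c, hc, hc1, hx⟩ := hK 1 le_rfl
  refine ⟨K, by omega, fun β hβ hβ0 ε hε N₀ => ?_⟩
  -- an upper bound and the smallest gap
  obtain ⟨B, hB0, hB⟩ : ∃ B : ℝ, 0 ≤ B ∧ ∀ j, β j ≤ B :=
    ⟨∑ j, β j, sum_nonneg fun j _ => hβ0 j, fun j => single_le_sum (f := β) (fun i _ => hβ0 i) (mem_univ j)⟩
  obtain ⟨δ, hδ0, hδ⟩ : ∃ δ : ℝ, 0 < δ ∧ ∀ i j, i < j → δ < β j - β i := by
    by_cases hne : (univ.filter (fun x : Fin K × Fin K => x.1 < x.2)).Nonempty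
    · obtain ⟨x₀, hx₀, hmin⟩ := exists_min_image _ (fun x : Fin K × Fin K => β x.2 - β x.1) hne
      rw [mem_filter] at hx₀
      have h1 : 0 < β x₀.2 - β x₀.1 := sub_pos.2 (hβ hx₀.2)
      refine ⟨(β x₀.2 - β x₀.1) / 2, by linarith, fun i j hij => ?_⟩
      have := hmin (i, j) (mem_filter.2 ⟨mem_univ _, hij⟩)
      simp only at this
      linarith
    · refine ⟨1, one_pos, fun i j hij => absurd ⟨(i, j), mem_filter.2 ⟨mem_univ _, hij⟩⟩ hne⟩
  obtain ⟨ε₁, hε₁⟩ : ∃ ε₁ : ℝ, ε₁ = min (min 1 δ) (ε / (2 * (B + 1))) := ⟨_, rfl⟩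
  have hε₁0 : 0 < ε₁ := by rw [hε₁]; exact lt_min (lt_min one_pos hδ0) (by positivity)
  have hε₁1 : ε₁ ≤ 1 := by rw [hε₁]; exact (min_le_left _ _).trans (min_le_left _ _)
  have hε₁δ : ε₁ ≤ δ := by rw [hε₁]; exact (min_le_left _ _).trans (min_le_right _ _)
  have hε₁ε : ε₁ * (B + 1) ≤ ε / 2 := by
    have : ε₁ ≤ ε / (2 * (B + 1)) := by rw [hε₁]; exact min_le_right _ _
    rw [le_div_iff₀ (by positivity)] at this
    linarith
  obtain ⟨ε₂, hε₂⟩ : ∃ ε₂ : ℝ, ε₂ = ε₁ / (B + 2) := ⟨_, rfl⟩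
  have hε₂0 : 0 < ε₂ := by rw [hε₂]; positivity
  have hε₂1 : ε₂ < 1 := by
    rw [hε₂, div_lt_one (by positivity)]
    linarith
  have hε₂h : ε₂ ≤ 1 / 2 := by
    rw [hε₂, div_le_div_iff₀ (by positivity) (by norm_num)]
    nlinarith
  obtain ⟨y₀, hy₀⟩ := prime_below ε₂ hε₂0 hε₂1
  obtain ⟨x, ⟨⟨g1, g1', g2⟩, g3⟩, g4, g5⟩ := (((growth ((|y₀| + 2 * (K + 2)) / ε₁) ε₁ hε₁0).and hx).and
    ((ev (4 * (B + 1) / c + 1)).and (eventually_ge_atTop (N₀ : ℝ)))).exists
  obtain ⟨m0, m1, m2, m3, m4⟩ := g4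
  have hBc : 0 < 4 * (B + 1) / c := by positivity
  obtain ⟨-, b2⟩ := FF_bounds (x := x) (by linarith) (by linarith) (by linarith) (by linarith)
  set l1 := Real.log x with hl1
  set l2 := Real.log l1 with hl2
  set S := l1 * l2 with hS
  have hl10 : 0 < l1 := by linarith
  have hl20 : 0 < l2 := by linarith
  have hS0 : 0 < S := by positivity
  rw [div_le_iff₀ hε₁0] at g1
  have hy₀' := abs_nonneg y₀
  have hy₀'' := le_abs_self y₀
  have hKn : (0 : ℝ) ≤ K := Nat.cast_nonneg K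
  have hFS : (B + 1) * S ≤ c * FF x := by
    have h1 : c * (l1 * l2 ^ 2 / 4) ≤ c * FF x := mul_le_mul_of_nonneg_left b2 hc.le
    have h2 : 4 * (B + 1) ≤ c * l2 := by
      have : 4 * (B + 1) / c ≤ l2 := by linarith
      rw [div_le_iff₀ hc] at this
      linarith
    have h3 : 4 * (B + 1) * (l1 * l2) ≤ c * l2 * (l1 * l2) := mul_le_mul_of_nonneg_right h2 hS0.le
    have h4 : c * (l1 * l2 ^ 2 / 4) = c * l2 * (l1 * l2) / 4 := by ring
    rw [hS]
    linarith
  -- the primes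
  have hex : ∀ j : Fin K, ∃ p : ℕ, p.Prime ∧ β j * S < p ∧ (p : ℝ) ≤ (β j + ε₁) * S ∧ (K : ℝ) + 2 < p := by
    intro j
    have hy : |y₀| + 2 * (K + 2) ≤ (β j + ε₁) * S := by
      have h1 : 0 ≤ β j * S := mul_nonneg (hβ0 j) hS0.le
      nlinarith
    obtain ⟨p, hp, hp1, hp2⟩ := hy₀ ((β j + ε₁) * S) (by linarith)
    refine ⟨p, hp, ?_, hp2, ?_⟩
    · have h1 : ε₂ * (β j + ε₁) ≤ ε₁ := by
        rw [hε₂, div_mul_eq_mul_div, div_le_iff₀ (by positivity)]
        apply mul_le_mul_of_nonneg_left _ hε₁0.le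
        have := hB j
        linarith
      have h2 : β j * S ≤ (1 - ε₂) * ((β j + ε₁) * S) := by
        have h3 : (1 - ε₂) * ((β j + ε₁) * S) = β j * S + (ε₁ - ε₂ * (β j + ε₁)) * S := by ring
        rw [h3]
        have h4 : 0 ≤ (ε₁ - ε₂ * (β j + ε₁)) * S := mul_nonneg (by linarith) hS0.le
        linarith
      linarith
    · have h1 : 1 / 2 * ((β j + ε₁) * S) ≤ (1 - ε₂) * ((β j + ε₁) * S) := by
        apply mul_le_mul_of_nonneg_right (by linarith)
        linarith
      linarith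
  choose q hq1 hq2 hq3 hq4 using hex
  have hqmono : StrictMono q := by
    intro i j hij
    have h1 := hδ i j hij
    have h2 : (β i + ε₁) * S ≤ β j * S := mul_le_mul_of_nonneg_right (by linarith) hS0.le
    have h3 : (q i : ℝ) < q j := by linarith [hq3 i, hq2 j]
    exact_mod_cast h3
  have hqF : ∀ j, (q j : ℝ) ≤ c * FF x := by
    intro j
    refine (hq3 j).trans (le_trans ?_ hFS)
    apply mul_le_mul_of_nonneg_right _ hS0.le
    have := hB j
    linarith
  obtain ⟨N, hN1, hN2, hN3, -, hqN, ⟨E, hE1, hE2⟩, hN5⟩ := g3 q hqmono.injective (fun j => by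
      refine ⟨hq1 j, ?_, ?_, hqF j⟩
      · have := hq4 j
        have h1 : (K : ℝ) < q j := by linarith
        exact_mod_cast h1
      · intro h
        have := hq4 j
        rw [h] at this
        push_cast at this
        linarith) (Pool.Agent.H362R2.RQ.cmod K m hm1) (Pool.Agent.H362R2.RQ.fib_cmod K m hm1 hmK) ∅
    (by simpa using Real.rpow_nonneg (by linarith : (0 : ℝ) ≤ x) _)
  set H : Finset (Fin K) := univ.filter (fun j => (N - q j).Prime) with hH
  have hHcard : r ≤ H.card := by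
    have h1 : E.card ≤ H.card := by
      have h2 : E ⊆ H.image (Pool.Agent.H362R2.RQ.cmod K m hm1) := by
        intro e he
        obtain ⟨j, hj1, hj2⟩ := hE2 e he
        rw [mem_image]
        exact ⟨j, mem_filter.2 ⟨mem_univ _, hj2⟩, hj1⟩
      exact (card_le_card h2).trans card_image_le
    have h2 : (r : ℝ) ≤ E.card := hηm.trans hE1
    have h3 : r ≤ E.card := by exact_mod_cast h2
    omega
  set e := H.orderEmbOfFin rfl with he
  have hNx : (x : ℝ) ≤ N := hN1.le
  refine ⟨fun k => e (Fin.castLE hHcard k), fun a b hab => e.strictMono (by simpa using hab), N, ?_, hN3,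
    fun k => q (e (Fin.castLE hHcard k)), ⟨?_, ?_, ?_⟩, ?_⟩
  · have : (N₀ : ℝ) ≤ N := by linarith
    exact_mod_cast this
  · exact fun a b hab => hqmono (e.strictMono (by simpa using hab))
  · intro k
    have h1 : e (Fin.castLE hHcard k) ∈ H := H.orderEmbOfFin_mem rfl _
    exact ⟨hq1 _, hqN _, (mem_filter.1 h1).2⟩
  · intro p hp hpN hpN'
    by_cases hpF : (p : ℝ) ≤ c * FF x
    · obtain ⟨-, l, hl⟩ := (hN5 1 le_rfl le_rfl p (N - p) hp hpN' hpF).1 (by omega)
      have hlH : l ∈ H := mem_filter.2 ⟨mem_univ _, by rw [← hl]; exact hpN'⟩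
      obtain ⟨i, hi⟩ : l ∈ Set.range e := by
        rw [he, H.range_orderEmbOfFin rfl]
        exact hlH
      by_cases hir : (i : ℕ) < r
      · left
        refine ⟨⟨i, hir⟩, ?_⟩
        rw [hl, ← hi]
        congr 1
      · right
        intro k
        rw [hl, ← hi]
        apply hqmono
        apply e.strictMono
        show (Fin.castLE hHcard k : ℕ) < i
        have := k.2
        simp only [Fin.val_castLE]
        omega
    · right
      intro k
      push Not at hpF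
      have h1 : (q (e (Fin.castLE hHcard k)) : ℝ) < p := lt_of_le_of_lt (hqF _) hpF
      exact_mod_cast h1
  · intro k
    obtain ⟨s1, s2⟩ := g2 N hN1 hN2
    set j := e (Fin.castLE hHcard k) with hj
    set SN := Real.log N * Real.log (Real.log N) with hSN
    have hSN0 : 0 < SN := lt_of_lt_of_le hS0 s1
    rw [abs_lt]
    constructor
    · have h1 : β j - ε < q j / SN := by
        rw [lt_div_iff₀ hSN0]
        by_cases hneg : β j - ε ≤ 0
        · have h2 : (β j - ε) * SN ≤ 0 := mul_nonpos_of_nonpos_of_nonneg hneg hSN0.le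
          have h3 : (0 : ℝ) < q j := by exact_mod_cast (hq1 j).pos
          linarith
        · push Not at hneg
          have h2 : (β j - ε) * SN ≤ (β j - ε) * ((1 + ε₁) * S) := mul_le_mul_of_nonneg_left s2 hneg.le
          have h3 : (β j - ε) * (1 + ε₁) ≤ β j := by
            have h4 : β j * ε₁ ≤ ε / 2 := by
              have h5 : β j * ε₁ ≤ (B + 1) * ε₁ := by
                apply mul_le_mul_of_nonneg_right _ hε₁0.le
                have := hB j
                linarith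
              linarith
            nlinarith
          have h4 : (β j - ε) * ((1 + ε₁) * S) ≤ β j * S := by
            rw [← mul_assoc]
            exact mul_le_mul_of_nonneg_right h3 hS0.le
          linarith [hq2 j]
      linarith
    · have h1 : q j / SN < β j + ε := by
        rw [div_lt_iff₀ hSN0]
        have h2 : (q j : ℝ) ≤ (β j + ε₁) * SN := by
          refine (hq3 j).trans ?_
          apply mul_le_mul_of_nonneg_left s1
          have := hβ0 j
          linarith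
        have h3 : ε₁ < ε := by nlinarith
        have h4 : (β j + ε₁) * SN < (β j + ε) * SN := mul_lt_mul_of_pos_right (by linarith) hSN0
        linarith
      linarith

/-- the vectors of the least primes, with fixed indices -/
theorem vectors' (r : ℕ) (hr : 1 ≤ r) : ∃ K : ℕ, r ≤ K ∧ ∀ β : Fin K → ℝ, StrictMono β → (∀ j, 0 ≤ β j) →
    ∃ I : Fin r → Fin K, StrictMono I ∧ ∀ ε : ℝ, 0 < ε → ∀ N₀ : ℕ, ∃ N : ℕ, N₀ ≤ N ∧ Even N ∧
      ∃ p : Fin r → ℕ, LeastPrimes N p ∧
        ∀ k, |(p k : ℝ) / (Real.log N * Real.log (Real.log N)) - β (I k)| < ε := by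
  obtain ⟨K, hrK, h⟩ := vectors r hr
  refine ⟨K, hrK, fun β hβ hβ0 => ?_⟩
  choose I hI hN using fun n : ℕ => h β hβ hβ0 (1 / ((n : ℝ) + 1)) (by positivity) n
  obtain ⟨I₀, hI₀⟩ := Finite.exists_infinite_fiber I
  rw [Set.infinite_coe_iff] at hI₀
  obtain ⟨n₀, hn₀⟩ := hI₀.nonempty
  have hn₀' : I n₀ = I₀ := hn₀
  refine ⟨I₀, hn₀' ▸ hI n₀, fun ε hε N₀ => ?_⟩
  obtain ⟨n, hn, hnN⟩ := hI₀.exists_gt (max N₀ ⌈1 / ε⌉₊)
  have hn' : I n = I₀ := hn
  obtain ⟨N, h1, h2, p, h3, h4⟩ := hN n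
  refine ⟨N, ?_, h2, p, h3, fun k => ?_⟩
  · have := le_max_left N₀ ⌈1 / ε⌉₊
    omega
  · have h5 := h4 k
    rw [hn'] at h5
    refine h5.trans_le ?_
    have h6 : 1 / ε ≤ n := by
      refine (Nat.le_ceil _).trans ?_
      have := le_max_right N₀ ⌈1 / ε⌉₊
      exact_mod_cast (by omega : ⌈1 / ε⌉₊ ≤ n)
    rw [div_le_iff₀ hε] at h6
    rw [div_le_iff₀ (by positivity)]
    nlinarith

/-- **The small primes in the Goldbach representations.**

(1) There is `η > 0` and for every `m` there is `K ≥ m` such that for every `J` there is `c > 0` such that for all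
large `x`, for ANY `K` distinct odd primes `q_1, …, q_K` with `K < q_j ≤ c F(x)` and any colouring of the indices with
`m` colours, each used at least `K/(2m)` times: for at least `x^(9/10)` even numbers `N ∈ (x, 4 x]` at least `η m` of
the colours contain an index `j` with `N - q_j` prime, and the `q_j` are the only primes `p ≤ c F(x)` for which one of
the numbers `i N - p`, `i N + p`, `1 ≤ i ≤ J`, is prime (and only as `N - q_j`).

(2) For every `r` there is `K` such that for all real `0 ≤ β_1 < … < β_K` there are `i_1 < … < i_r` such that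
`(β_(i_1), …, β_(i_r))` is a limit point of the vectors of the `r` least primes `p` with `N - p` prime, divided by
`log N log log N`, `N` even. -/
theorem result :
    (∃ η : ℝ, 0 < η ∧ ∀ m : ℕ, 1 ≤ m → ∃ K : ℕ, m ≤ K ∧ ∀ J : ℕ, 1 ≤ J → ∃ c : ℝ, 0 < c ∧ ∃ x₀ : ℝ,
      ∀ x : ℝ, x₀ ≤ x → ∀ q : Fin K → ℕ, Function.Injective q →
      (∀ j, (q j).Prime ∧ K < q j ∧ q j ≠ 2 ∧ (q j : ℝ) ≤ c * F x) →
      ∀ col : Fin K → Fin m, (∀ e, K ≤ 2 * m * {j | col j = e}.ncard) →
      x ^ (9 / 10 : ℝ) ≤ ({N : ℕ | x < N ∧ (N : ℝ) ≤ 4 * x ∧ Even N ∧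
        η * m ≤ ({e : Fin m | ∃ j, col j = e ∧ (N - q j).Prime}.ncard : ℝ) ∧ Only J (c * F x) q N}.ncard : ℝ)) ∧
    ∀ r : ℕ, 1 ≤ r → ∃ K : ℕ, r ≤ K ∧ ∀ β : Fin K → ℝ, StrictMono β → (∀ j, 0 ≤ β j) →
      ∃ I : Fin r → Fin K, StrictMono I ∧ ∀ ε : ℝ, 0 < ε → ∀ N₀ : ℕ, ∃ N : ℕ, N₀ ≤ N ∧ Even N ∧
        ∃ p : Fin r → ℕ, LeastPrimes N p ∧
          ∀ k, |(p k : ℝ) / (Real.log N * Real.log (Real.log N)) - β (I k)| < ε := by
  classical
  refine ⟨?_, vectors'⟩
  obtain ⟨η, hη, hs⟩ := signatures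
  refine ⟨η, hη, fun m hm => ?_⟩
  obtain ⟨K, hmK, hK⟩ := hs m hm
  refine ⟨K, hmK, fun J hJ => ?_⟩
  obtain ⟨c, hc, hc1, hx⟩ := hK J hJ
  obtain ⟨x₀, hx₀⟩ := eventually_atTop.1 hx
  refine ⟨c, hc, x₀, fun x hxx q hqinj hq col hcol => ?_⟩
  simp only [F_eq] at hq ⊢
  set T := {N : ℕ | x < N ∧ (N : ℝ) ≤ 4 * x ∧ Even N ∧
        η * m ≤ ({e : Fin m | ∃ j, col j = e ∧ (N - q j).Prime}.ncard : ℝ) ∧ Only J (c * FF x) q N} with hT
  have hfin : T.Finite := by
    apply (Set.finite_Iic ⌊4 * x⌋₊).subset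
    intro p hp
    exact Set.mem_Iic.2 (Nat.le_floor hp.2.1)
  by_contra hcon
  push Not at hcon
  rw [Set.ncard_eq_toFinset_card T hfin] at hcon
  obtain ⟨N, hN1, hN2, hN3, hN4, -, ⟨E, hE1, hE2⟩, hN5⟩ := hx₀ x hxx q hqinj hq col
    (fun e => by
      have h1 : {j | col j = e}.ncard = Pool.Agent.H362R2.RQ.fib col e := by
        rw [Set.ncard_eq_toFinset_card']
        unfold Pool.Agent.H362R2.RQ.fib
        congr 1
        ext j
        simp
      rw [← h1]
      exact hcol e) hfin.toFinset hcon.le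
  apply hN4
  rw [Set.Finite.mem_toFinset]
  refine ⟨hN1, hN2, hN3, hE1.trans ?_, hN5⟩
  have h1 : (E : Set (Fin m)) ⊆ {e : Fin m | ∃ j, col j = e ∧ (N - q j).Prime} := fun e he => hE2 e he
  have h2 := Set.ncard_le_ncard h1 (Set.toFinite _)
  rw [Set.ncard_coe_finset] at h2
  exact_mod_cast h2

end Pool.Agent.Results.MP_73b532_nt.GoldbachSignatures
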