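import Pool.Agent.Q117.LF.Main6

/-!
MP_73b532_nt (the Goldbach-Knjzek conjecture): every large even number `2 n` is the sum of a prime `p` of `(n/2, n)` and a product of at most two primes such that
the surroundings of BOTH summands are exactly the prescribed ones, at the scale of Rankin for one of them and at the scale of the average gap for the other.
-/

set_option autoImplicit false

namespace Pool.Agent.Results.MP_73b532_nt.PrescribedSurroundings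

/-- the scale of Rankin -/
noncomputable def R (X : ℝ) : ℝ :=
  Real.log X * Real.log (Real.log X) * Real.log (Real.log (Real.log (Real.log X))) / (Real.log (Real.log (Real.log X))) ^ 2

/-- all prime factors of `m` are `> z` (so `0` is not rough) -/
def Rough (z : ℝ) (m : ℤ) : Prop := ∀ p : ℕ, p.Prime → (p : ℤ) ∣ m → z < p

/-- at most two prime factors (with multiplicity), all `> z` -/
def AtMostTwo (z : ℝ) (m : ℤ) : Prop := m.natAbs.primeFactorsList.length ≤ 2 ∧ Rough z m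

/-- the numbers `a + s`, `|s| ≤ D`, `s ∉ Z`, are almost primes (no prime factor `≤ w`) for `s ∈ H` and have a prime factor `≤ log n` for `s ∉ H` -/
def Surroundings (n : ℕ) (w D : ℝ) (H Z : Finset ℤ) (a : ℤ) : Prop :=
  (∀ s ∈ H, Rough w (a + s)) ∧ ∀ s : ℤ, |(s : ℝ)| ≤ D → s ∉ H → s ∉ Z → ¬ Rough (Real.log n) (a + s)

/-- `Z` has at most `2 k` elements, and for each of them, `s`, some `2 n + s + h`, `h ∈ H`, has at least `c log n / loglog n` different prime factors `≤ log n` -/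
def Exceptional (k : ℕ) (c : ℝ) (n : ℕ) (H Z : Finset ℤ) : Prop := Z.card ≤ 2 * k ∧ ∀ s ∈ Z, ∃ h ∈ H,
  c * (Real.log n / Real.log (Real.log n)) ≤ (((2 * (n : ℤ) + s + h).natAbs.primeFactors.filter (fun p : ℕ => (p : ℝ) ≤ Real.log n)).card : ℝ)

/-- the primes `p` of `(n/2, n)` such that `2 n - p` has at most two prime factors, all `> n ^ (1/9)`, with the prescribed surroundings of both -/
def Partitions (t n : ℕ) (D D' : ℝ) (H H' Z Z' : Finset ℤ) : Set ℕ :=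
  {p : ℕ | p < n ∧ n < 2 * p ∧ p.Prime ∧ AtMostTwo ((n : ℝ) ^ (1 / 9 : ℝ)) (2 * (n : ℤ) - p) ∧ Surroundings n ((n : ℝ) ^ (1 / (t : ℝ))) D H Z p ∧
    Surroundings n ((n : ℝ) ^ (1 / (t : ℝ))) D' H' Z' (2 * (n : ℤ) - p)}

/-- one of the two windows is of the size of Rankin's gaps, the other one of the size of the average gap -/
def Windows (c : ℝ) (n : ℕ) (D D' : ℝ) : Prop := D = c * R n ∧ D' = c * Real.log n ∨ D = c * Real.log n ∧ D' = c * R n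

/-- the two sets of shifts: they contain `0`, have at most `k` elements, lie in the windows, and the `r + h`, `h ∈ H`, and `2 n - r + h`, `h ∈ H'`, have no fixed
prime divisor -/
def Shifts (k n : ℕ) (D D' : ℝ) (H H' : Finset ℤ) : Prop :=
  H.card ≤ k ∧ H'.card ≤ k ∧ 0 ∈ H ∧ 0 ∈ H' ∧ (∀ h ∈ H, |(h : ℝ)| ≤ D) ∧ (∀ h ∈ H', |(h : ℝ)| ≤ D') ∧
    ∀ p : ℕ, p.Prime → ∃ r : ℤ, (∀ h ∈ H, ¬ (p : ℤ) ∣ r + h) ∧ ∀ h ∈ H', ¬ (p : ℤ) ∣ 2 * n - r + h

theorem toSet {t n : ℕ} {D D' b : ℝ} {H H' Z Z' : Finset ℤ} (h : b ≤ ((Pool.Agent.Q117.LF.PtsB t n D D' H H' Z Z').card : ℝ)) :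
    b ≤ ((Partitions t n D D' H H' Z Z').ncard : ℝ) := by
  classical
  refine h.trans ?_
  rw [← Set.ncard_coe_finset]
  have hfin : (Partitions t n D D' H H' Z Z').Finite := by
    apply Set.Finite.subset (Set.finite_Iio n)
    intro p hp
    exact hp.1
  have hsub : ((Pool.Agent.Q117.LF.PtsB t n D D' H H' Z Z' : Finset ℕ) : Set ℕ) ⊆ Partitions t n D D' H H' Z Z' := by
    intro p hp
    unfold Pool.Agent.Q117.LF.PtsB at hp
    obtain ⟨h0, h1, h2, h3, h4, h5, h6, h7⟩ := Finset.mem_filter.1 (Finset.mem_coe.1 hp)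
    exact ⟨Finset.mem_range.1 h0, h1, h2, h3, ⟨h4, h6⟩, h5, h7⟩
  exact_mod_cast Set.ncard_le_ncard hsub hfin

theorem result : ∀ k : ℕ, ∃ t : ℕ, 1 ≤ t ∧ ∃ c : ℝ, 0 < c ∧
    (∃ N : ℕ, ∀ n : ℕ, N ≤ n → ∀ D D' : ℝ, Windows c n D D' → ∀ H H' : Finset ℤ, Shifts k n D D' H H' →
      ∃ Z Z' : Finset ℤ, Exceptional k c n H' Z ∧ Exceptional k c n H Z' ∧ (n : ℝ) ^ (98 / 100 : ℝ) ≤ ((Partitions t n D D' H H' Z Z').ncard : ℝ)) ∧
    ∃ δ : ℝ, 0 < δ ∧ ∃ M0 : ℕ, ∀ M : ℕ, M0 ≤ M → ∃ E : Finset ℕ, (E.card : ℝ) ≤ (M : ℝ) ^ (1 - δ) ∧ ∀ n : ℕ, 1 ≤ n → n ≤ M → n ∉ E →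
      ∀ D D' : ℝ, Windows c n D D' → ∀ H H' : Finset ℤ, Shifts k n D D' H H' →
        (n : ℝ) ^ (98 / 100 : ℝ) ≤ ((Partitions t n D D' H H' ∅ ∅).ncard : ℝ) := by
  intro k
  obtain ⟨t, ht, c, hc, ⟨N, h1⟩, δ, hδ, M0, h2⟩ := Pool.Agent.Q117.LF.t52C Pool.Agent.Q117.LF.isoC Pool.Agent.Q117.LF.rar k
  refine ⟨t, ht, c, hc, ⟨N, fun n hn D D' hD H H' hH => ?_⟩, δ, hδ, M0, fun M hM => ?_⟩
  · obtain ⟨a1, a2, a3, a4, a5, a6, a7⟩ := hH
    obtain ⟨Z, Z', hZ, hZ', h⟩ := h1 n hn D D' hD H H' a1 a2 a3 a4 a5 a6 a7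
    exact ⟨Z, Z', hZ, hZ', toSet h⟩
  · obtain ⟨E, hE, h⟩ := h2 M hM
    refine ⟨E, hE, fun n hn1 hn2 hn3 D D' hD H H' hH => ?_⟩
    obtain ⟨a1, a2, a3, a4, a5, a6, a7⟩ := hH
    exact toSet (h n hn1 hn2 hn3 D D' hD H H' a1 a2 a3 a4 a5 a6 a7)

end Pool.Agent.Results.MP_73b532_nt.PrescribedSurroundings
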